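import Mathlib

/-!
# Crew TL, part R1 : series lemmas
-/

set_option autoImplicit false

namespace H26.TL

open Finset Real

lemma hs_congr {f g : ℕ → ℝ} {a b : ℝ} (h : HasSum f a) (hf : ∀ n, g n = f n) (ha : b = a) :
    HasSum g b := by
  have : g = f := funext hf
  rw [this, ha]; exact h

/-- partial sums of the alternating harmonic series -/
noncomputable def A (m : ℕ) : ℝ := ∑ i ∈ range m, (-1 : ℝ) ^ i / (i + 1)

lemma A_lower (j : ℕ) : Real.log 2 + 1 / (2 * ((2 * j + 1 : ℕ) + 1)) ≤ A (2 * j + 1) := by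
  set m := 2 * j + 1 with hm
  let F : ℝ → ℝ := fun x => ∑ i ∈ range m, (-1 : ℝ) ^ i * x ^ (i + 1) / (i + 1)
    - Real.log (1 + x) - x ^ (m + 1) / (2 * (m + 1))
  have hd : ∀ x : ℝ, 0 < x → HasDerivAt F (x ^ m / (1 + x) - x ^ m / 2) x := by
    intro x hx
    have h1 : HasDerivAt (fun x : ℝ => ∑ i ∈ range m, (-1 : ℝ) ^ i * x ^ (i + 1) / (i + 1))
        (∑ i ∈ range m, (-x) ^ i) x := by
      apply HasDerivAt.fun_sum
      intro i _
      have h := ((hasDerivAt_pow (i + 1) x).const_mul ((-1 : ℝ) ^ i)).div_const ((i : ℝ) + 1)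
      refine h.congr_deriv ?_
      have : ((i : ℝ) + 1) ≠ 0 := by positivity
      rw [neg_pow x i]
      push_cast
      field_simp
    have h2 : HasDerivAt (fun x : ℝ => Real.log (1 + x)) (1 / (1 + x)) x := by
      have := (((hasDerivAt_id x).const_add 1).log (by simp; positivity))
      simpa using this
    have h3 : HasDerivAt (fun x : ℝ => x ^ (m + 1) / (2 * ((m : ℝ) + 1))) (x ^ m / 2) x := by
      have h := (hasDerivAt_pow (m + 1) x).div_const (2 * ((m : ℝ) + 1))
      refine h.congr_deriv ?_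
      have : ((m : ℝ) + 1) ≠ 0 := by positivity
      push_cast
      field_simp
    have h := (h1.sub h2).sub h3
    refine h.congr_deriv ?_
    have hg : (∑ i ∈ range m, (-x) ^ i) = (1 + x ^ m) / (1 + x) := by
      rw [geom_sum_eq (by linarith)]
      have : (-x) ^ m = - x ^ m := by
        rw [hm]; exact Odd.neg_pow ⟨j, rfl⟩ x
      rw [this]
      have h1x : (1 + x) ≠ 0 := by positivity
      have h2x : (-x - 1) ≠ 0 := by intro h; apply h1x; linarith
      field_simp
      ring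
    rw [hg]
    have h1x : (1 + x) ≠ 0 := by positivity
    field_simp
    ring
  have hcont : ContinuousOn F (Set.Icc 0 1) := by
    apply ContinuousOn.sub
    · apply ContinuousOn.sub
      · fun_prop
      · apply ContinuousOn.log
        · fun_prop
        · intro x hx; have := hx.1; positivity
    · fun_prop
  have hmono : MonotoneOn F (Set.Icc 0 1) := by
    apply monotoneOn_of_deriv_nonneg (convex_Icc 0 1) hcont
    · intro x hx
      rw [interior_Icc] at hx
      exact (hd x hx.1).differentiableAt.differentiableWithinAt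
    · intro x hx
      rw [interior_Icc] at hx
      rw [(hd x hx.1).deriv]
      have hx0 := hx.1
      have hx1 := hx.2
      have : x ^ m / 2 ≤ x ^ m / (1 + x) := by
        apply div_le_div_of_nonneg_left (by positivity) (by positivity) (by linarith)
      linarith
  have h01 := hmono (Set.left_mem_Icc.2 zero_le_one) (Set.right_mem_Icc.2 zero_le_one) zero_le_one
  have hF0 : F 0 = 0 := by
    simp [F]
  have hF1 : F 1 = A m - Real.log 2 - 1 / (2 * ((m : ℝ) + 1)) := by
    simp only [F, A, one_pow, mul_one]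
    norm_num
  rw [hF0, hF1] at h01
  linarith

lemma hv {y : ℝ} (h0 : 0 < y) (h1 : y < 1) :
    HasSum (fun n : ℕ => y ^ (n + 1) / (n + 1)) (-Real.log (1 - y)) :=
  Real.hasSum_pow_div_log_of_abs_lt_one (by rw [abs_of_pos h0]; exact h1)

lemma hu {y : ℝ} (h0 : 0 < y) (h1 : y < 1) :
    HasSum (fun n : ℕ => (-1 : ℝ) ^ n * (y ^ (n + 1) / (n + 1))) (Real.log (1 + y)) := by
  have h := (Real.hasSum_pow_div_log_of_abs_lt_one (x := -y)
    (by rw [abs_neg, abs_of_pos h0]; exact h1)).neg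
  simp only [neg_neg, sub_neg_eq_add] at h
  refine hs_congr h ?_ rfl
  intro n
  rw [neg_pow y, pow_succ (-1 : ℝ)]
  ring

lemma anti_sum (n : ℕ) : ∑ ij ∈ antidiagonal n, (-1 : ℝ) ^ ij.1 / (((ij.1 : ℝ) + 1) * ((ij.2 : ℝ) + 1))
    = (1 + (-1) ^ n) * A (n + 1) / (n + 2) := by
  have h1 : ∀ ij ∈ antidiagonal n, (-1 : ℝ) ^ ij.1 / (((ij.1 : ℝ) + 1) * ((ij.2 : ℝ) + 1))
      = ((-1 : ℝ) ^ ij.1 / ((ij.1 : ℝ) + 1) + (-1) ^ n * ((-1) ^ ij.2 / ((ij.2 : ℝ) + 1))) / (n + 2) := by
    intro ij hij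
    rw [Finset.HasAntidiagonal.mem_antidiagonal] at hij
    have e1 : ((ij.1 : ℝ) + 1) ≠ 0 := by positivity
    have e2 : ((ij.2 : ℝ) + 1) ≠ 0 := by positivity
    have e3 : ((n : ℝ) + 2) ≠ 0 := by positivity
    have e4 : (n : ℝ) = ij.1 + ij.2 := by rw [← hij]; push_cast; ring
    have e5 : (-1 : ℝ) ^ n * (-1) ^ ij.2 = (-1) ^ ij.1 := by
      rw [← hij, pow_add, mul_assoc, ← pow_add, ← two_mul, pow_mul]
      norm_num
    have e6 : (-1 : ℝ) ^ n * ((-1) ^ ij.2 / ((ij.2 : ℝ) + 1)) = (-1) ^ ij.1 / ((ij.2 : ℝ) + 1) := by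
      rw [← mul_div_assoc, e5]
    rw [e6]
    field_simp
    rw [e4]
    ring
  rw [sum_congr rfl h1, ← sum_div, sum_add_distrib, ← mul_sum]
  have h2 : ∑ ij ∈ antidiagonal n, (-1 : ℝ) ^ ij.1 / ((ij.1 : ℝ) + 1) = A (n + 1) := by
    rw [Finset.Nat.sum_antidiagonal_eq_sum_range_succ_mk]
    rfl
  have h3 : ∑ ij ∈ antidiagonal n, (-1 : ℝ) ^ ij.2 / ((ij.2 : ℝ) + 1) = A (n + 1) := by
    rw [← h2]
    exact Finset.Nat.sum_antidiagonal_swap (n := n) (f := fun ij => (-1 : ℝ) ^ ij.1 / ((ij.1 : ℝ) + 1))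
  rw [h2, h3]
  ring

lemma huv {y : ℝ} (h0 : 0 < y) (h1 : y < 1) :
    HasSum (fun n : ℕ => (1 + (-1 : ℝ) ^ n) * A (n + 1) / (n + 2) * y ^ (n + 2))
      (Real.log (1 + y) * (-Real.log (1 - y))) := by
  have sv := hv h0 h1
  have su := hu h0 h1
  have nv : Summable (fun n : ℕ => ‖y ^ (n + 1) / ((n : ℝ) + 1)‖) := by
    have := sv.summable
    refine this.congr ?_
    intro n
    rw [Real.norm_of_nonneg (by positivity)]
  have nu : Summable (fun n : ℕ => ‖(-1 : ℝ) ^ n * (y ^ (n + 1) / ((n : ℝ) + 1))‖) := by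
    refine nv.congr ?_
    intro n
    rw [norm_mul]
    simp
  have hs := summable_norm_sum_mul_antidiagonal_of_summable_norm nu nv
  have ht := tsum_mul_tsum_eq_tsum_sum_antidiagonal_of_summable_norm nu nv
  have hsum := hs.of_norm.hasSum
  rw [← ht, su.tsum_eq, sv.tsum_eq] at hsum
  refine hs_congr hsum ?_ rfl
  intro n
  rw [← anti_sum, sum_mul]
  apply sum_congr rfl
  intro ij hij
  rw [Finset.HasAntidiagonal.mem_antidiagonal] at hij
  rw [← hij]
  have e1 : ((ij.1 : ℝ) + 1) ≠ 0 := by positivity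
  have e2 : ((ij.2 : ℝ) + 1) ≠ 0 := by positivity
  field_simp
  ring

/-- `v - u` -/
lemma hvmu {y : ℝ} (h0 : 0 < y) (h1 : y < 1) :
    HasSum (fun n : ℕ => (1 + (-1 : ℝ) ^ n) / (n + 2) * y ^ (n + 2))
      (-Real.log (1 - y) - Real.log (1 + y)) := by
  have h := (hv h0 h1).sub (hu h0 h1)
  have h' := (hasSum_nat_add_iff' 1).2 h
  simp only [range_one, sum_singleton] at h'
  refine hs_congr h' ?_ ?_
  · intro n
    have e1 : ((n : ℝ) + 2) ≠ 0 := by positivity
    push_cast
    rw [pow_succ (-1 : ℝ) n]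
    have e2 : ((n : ℝ) + 1 + 1) = n + 2 := by ring
    rw [e2]
    field_simp
    ring
  · norm_num

/-- `y (v + u)` -/
lemma hyvu {y : ℝ} (h0 : 0 < y) (h1 : y < 1) :
    HasSum (fun n : ℕ => (1 + (-1 : ℝ) ^ n) / (n + 1) * y ^ (n + 2))
      (y * (-Real.log (1 - y) + Real.log (1 + y))) := by
  have h := ((hv h0 h1).add (hu h0 h1)).mul_left y
  refine hs_congr h ?_ rfl
  intro n
  have e1 : ((n : ℝ) + 1) ≠ 0 := by positivity
  field_simp
  ring

/-- `y^2 (v - u)` -/
lemma hyyvu {y : ℝ} (h0 : 0 < y) (h1 : y < 1) :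
    HasSum (fun n : ℕ => (1 + (-1 : ℝ) ^ n) / n * y ^ (n + 2))
      (y ^ 2 * (-Real.log (1 - y) - Real.log (1 + y))) := by
  have h := ((hv h0 h1).sub (hu h0 h1)).mul_left (y ^ 2)
  rw [← hasSum_nat_add_iff' 1]
  simp only [range_one, sum_singleton]
  refine hs_congr h ?_ ?_
  · intro n
    have e1 : ((n : ℝ) + 1) ≠ 0 := by positivity
    push_cast
    rw [pow_succ (-1 : ℝ) n]
    field_simp
    ring
  · norm_num

/-- entropy inequality -/
theorem entropy {y : ℝ} (h0 : 0 < y) (h1 : y < 1) :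
    (1 + y) * Real.log (1 + y) + (1 - y) * Real.log (1 - y) ≤ 2 * Real.log 2 * y ^ 2 := by
  let G : ℝ → ℝ := fun z => (1 + z) * Real.log (1 + z) + (1 - z) * Real.log (1 - z)
  have hG : ∀ z : ℝ, 0 < z → z < 1 →
      HasSum (fun n : ℕ => (1 + (-1 : ℝ) ^ n) * (1 / (n + 1) - 1 / (n + 2)) * z ^ n) (G z / z ^ 2) := by
    intro z hz0 hz1
    have h := ((hyvu hz0 hz1).sub (hvmu hz0 hz1)).div_const (z ^ 2)
    refine hs_congr h ?_ ?_
    · intro n
      have e1 : ((n : ℝ) + 1) ≠ 0 := by positivity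
      have e2 : ((n : ℝ) + 2) ≠ 0 := by positivity
      field_simp
      ring
    · simp only [G]; ring
  have hmono : ∀ z : ℝ, y ≤ z → z < 1 → G y / y ^ 2 ≤ G z / z ^ 2 := by
    intro z hyz hz1
    have hz0 : 0 < z := lt_of_lt_of_le h0 hyz
    refine hasSum_le ?_ (hG y h0 h1) (hG z hz0 hz1)
    intro n
    apply mul_le_mul_of_nonneg_left
    · exact pow_le_pow_left₀ h0.le hyz n
    · apply mul_nonneg
      · rcases neg_one_pow_eq_or ℝ n with h | h <;> rw [h] <;> norm_num
      · have : 1 / ((n : ℝ) + 2) ≤ 1 / (n + 1) := by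
          apply one_div_le_one_div_of_le (by positivity) (by linarith)
        linarith
  have hcont : Continuous G := by
    have h := Real.continuous_mul_log
    have h1 : Continuous (fun z : ℝ => (1 + z) * Real.log (1 + z)) := h.comp (by fun_prop)
    have h2 : Continuous (fun z : ℝ => (1 - z) * Real.log (1 - z)) := h.comp (by fun_prop)
    exact h1.add h2
  have hlim : Filter.Tendsto (fun z => G z / z ^ 2) (nhdsWithin 1 (Set.Iio 1)) (nhds (G 1 / 1 ^ 2)) := by
    apply Filter.Tendsto.mono_left _ nhdsWithin_le_nhds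
    apply ContinuousAt.tendsto
    apply ContinuousAt.div hcont.continuousAt (by fun_prop) (by norm_num)
  have hle : G y / y ^ 2 ≤ G 1 / 1 ^ 2 := by
    apply ge_of_tendsto hlim
    have : Set.Ioo y 1 ∈ nhdsWithin (1 : ℝ) (Set.Iio 1) := Ioo_mem_nhdsLT h1
    filter_upwards [this] with z hz
    exact hmono z hz.1.le hz.2
  have hG1 : G 1 = 2 * Real.log 2 := by simp only [G]; norm_num
  rw [hG1, div_le_iff₀ (by positivity)] at hle
  simpa [G] using hle

/-- the inequality `φ ≥ 0` in natural logarithms -/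
theorem phi_nonneg {y : ℝ} (h0 : 0 < y) (h1 : y < 1) :
    0 ≤ 6 * Real.log 2 ^ 2 * y ^ 2
      + Real.log 2 * ((3 - 2 * y + y ^ 2) * (-Real.log (1 - y)) - (3 + 2 * y + y ^ 2) * Real.log (1 + y))
      - 2 * (Real.log (1 + y) * (-Real.log (1 - y))) := by
  set κ := Real.log 2 with hκ
  have hκ1 : κ < 0.6931471808 := Real.log_two_lt_d9
  have hκ0 : 0.6931471803 < κ := Real.log_two_gt_d9
  let Ψ : ℝ → ℝ := fun z => 6 * κ ^ 2 * z ^ 2
      + κ * ((3 - 2 * z + z ^ 2) * (-Real.log (1 - z)) - (3 + 2 * z + z ^ 2) * Real.log (1 + z))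
      - 2 * (Real.log (1 + z) * (-Real.log (1 - z)))
  let e : ℕ → ℝ := fun n => (1 + (-1 : ℝ) ^ n) *
    (κ * (3 / (n + 2) - 2 / (n + 1) + 1 / n) - 2 * A (n + 1) / (n + 2))
  have hΨ : ∀ z : ℝ, 0 < z → z < 1 →
      HasSum (fun n : ℕ => e n * z ^ n) (Ψ z / z ^ 2 - 6 * κ ^ 2) := by
    intro z hz0 hz1
    have h := ((((hvmu hz0 hz1).mul_left 3).sub ((hyvu hz0 hz1).mul_left 2)).add (hyyvu hz0 hz1)).mul_left κ
    have h' := (h.sub ((huv hz0 hz1).mul_left 2)).div_const (z ^ 2)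
    refine hs_congr h' ?_ ?_
    · intro n
      simp only [e]
      have e1 : ((n : ℝ) + 1) ≠ 0 := by positivity
      have e2 : ((n : ℝ) + 2) ≠ 0 := by positivity
      have e3 : z ^ (n + 2) = z ^ n * z ^ 2 := by ring
      rw [e3]
      have hz2 : z ^ 2 ≠ 0 := by positivity
      rw [eq_div_iff hz2]
      ring
    · have hz2 : z ^ 2 ≠ 0 := by positivity
      rw [eq_div_iff hz2, sub_mul, div_mul_cancel₀ _ hz2]
      simp only [Ψ]; ring
  have he : ∀ n : ℕ, 1 ≤ n → e n ≤ 0 := by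
    intro n hn
    rcases Nat.even_or_odd n with hev | hod
    · obtain ⟨j, hj⟩ := hev
      have hn2 : 2 ≤ n := by omega
      have hA := A_lower j
      have hmj : 2 * j + 1 = n + 1 := by omega
      rw [hmj] at hA
      push_cast at hA
      have hnr : (2 : ℝ) ≤ n := by exact_mod_cast hn2
      have e0 : (n : ℝ) ≠ 0 := by positivity
      have e1 : ((n : ℝ) + 1) ≠ 0 := by positivity
      have e2 : ((n : ℝ) + 2) ≠ 0 := by positivity
      simp only [e]
      apply mul_nonpos_of_nonneg_of_nonpos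
      · rcases neg_one_pow_eq_or ℝ n with h | h <;> rw [h] <;> norm_num
      · have hA' : κ + 1 / (2 * ((n : ℝ) + 2)) ≤ A (n + 1) := by
          have : ((n : ℝ) + 1 + 1) = n + 2 := by ring
          rw [this] at hA
          exact hA
        have h2A : 2 * (κ + 1 / (2 * ((n : ℝ) + 2))) / (n + 2) ≤ 2 * A (n + 1) / (n + 2) := by
          apply div_le_div_of_nonneg_right _ (by positivity)
          linarith
        have hfin : κ * (3 / ((n : ℝ) + 2) - 2 / (n + 1) + 1 / n)
            - 2 * (κ + 1 / (2 * ((n : ℝ) + 2))) / (n + 2)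
            = (2 * κ * (n + 2) - n * (n + 1)) / (n * (n + 1) * (n + 2) ^ 2) := by
          field_simp
          ring
        have hneg : (2 * κ * (n + 2) - n * (n + 1)) / (n * (n + 1) * ((n : ℝ) + 2) ^ 2) ≤ 0 := by
          apply div_nonpos_of_nonpos_of_nonneg _ (by positivity)
          nlinarith
        linarith
    · simp only [e]
      rw [hod.neg_one_pow]
      simp
  have hmono : ∀ z : ℝ, y ≤ z → z < 1 → Ψ z / z ^ 2 ≤ Ψ y / y ^ 2 := by
    intro z hyz hz1
    have hz0 : 0 < z := lt_of_lt_of_le h0 hyz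
    have := hasSum_le (f := fun n : ℕ => e n * z ^ n) (g := fun n : ℕ => e n * y ^ n) ?_
      (hΨ z hz0 hz1) (hΨ y h0 h1)
    · linarith
    · intro n
      rcases Nat.eq_zero_or_pos n with h | h
      · subst h; simp
      · exact mul_le_mul_of_nonpos_left (pow_le_pow_left₀ h0.le hyz n) (he n h)
  let H : ℝ → ℝ := fun z => (6 * κ ^ 2 * z ^ 2 - κ * (3 + 2 * z + z ^ 2) * Real.log (1 + z)) / z ^ 2
  have hlow : ∀ z : ℝ, 0 < z → z < 1 → H z ≤ Ψ z / z ^ 2 := by
    intro z hz0 hz1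
    apply div_le_div_of_nonneg_right _ (by positivity)
    simp only [Ψ]
    have hlog : Real.log (1 + z) ≤ κ := Real.log_le_log (by positivity) (by linarith)
    have hlogn : 0 ≤ - Real.log (1 - z) := by
      have := Real.log_nonpos (by linarith : (0:ℝ) ≤ 1 - z) (by linarith)
      linarith
    have hb : 0 ≤ κ * (3 - 2 * z + z ^ 2) - 2 * Real.log (1 + z) := by
      nlinarith [mul_nonneg (by linarith : (0:ℝ) ≤ κ) (sq_nonneg (1 - z))]
    nlinarith [mul_nonneg hb hlogn]
  have hlim : Filter.Tendsto H (nhdsWithin 1 (Set.Iio 1)) (nhds (H 1)) := by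
    apply Filter.Tendsto.mono_left _ nhdsWithin_le_nhds
    apply ContinuousAt.tendsto
    apply ContinuousAt.div _ (by fun_prop) (by norm_num)
    apply ContinuousAt.sub (by fun_prop)
    apply ContinuousAt.mul (by fun_prop)
    apply ContinuousAt.log (by fun_prop) (by norm_num)
  have hle : H 1 ≤ Ψ y / y ^ 2 := by
    apply le_of_tendsto hlim
    have : Set.Ioo y 1 ∈ nhdsWithin (1 : ℝ) (Set.Iio 1) := Ioo_mem_nhdsLT h1
    filter_upwards [this] with z hz
    exact (hlow z (h0.trans hz.1) hz.2).trans (hmono z hz.1.le hz.2)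
  have hH1 : H 1 = 0 := by
    simp only [H]
    have : Real.log (1 + 1) = κ := by norm_num [hκ]
    rw [this]
    ring
  rw [hH1] at hle
  have hy2 : 0 < y ^ 2 := by positivity
  have := mul_nonneg hle hy2.le
  rw [div_mul_cancel₀ _ hy2.ne'] at this
  simpa [Ψ] using this

end H26.TL
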