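import Pool.Agent.H77.TL.Stm
import Pool.Agent.H26.TL.Ser

/-!
# Crew TL, part R1
-/

set_option autoImplicit false
set_option maxHeartbeats 4000000

namespace Pool.MP324

open Real

namespace R1

lemma cc_mul : cc * Real.log 2 = 1 := by
  unfold cc
  have : Real.log 2 ≠ 0 := (Real.log_pos (by norm_num)).ne'
  field_simp

lemma cc_pos : 0 < cc := by
  unfold cc
  have : 0 < Real.log 2 := (Real.log_pos (by norm_num))
  positivity

lemma cc_lt : cc < 1.4427 := by
  unfold cc
  rw [div_lt_iff₀ (Real.log_pos (by norm_num))]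
  have := Real.log_two_gt_d9
  linarith

lemma lp_eq (y : ℝ) : lp y = cc * Real.log (1 + y) := by
  unfold lp cc Real.logb; ring

lemma lm_eq (y : ℝ) : lm y = cc * Real.log (1 - y) := by
  unfold lm cc Real.logb; ring

lemma lm_one : lm 1 = 0 := by simp [lm]
lemma lp_one : lp 1 = 1 := by
  unfold lp; norm_num

lemma lp_nonneg {y : ℝ} (h0 : 0 ≤ y) : 0 ≤ lp y := by
  rw [lp_eq]; exact mul_nonneg cc_pos.le (Real.log_nonneg (by linarith))

lemma lp_le_one {y : ℝ} (h0 : 0 ≤ y) (h1 : y ≤ 1) : lp y ≤ 1 := by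
  rw [← lp_one]
  unfold lp
  exact Real.logb_le_logb_of_le (by norm_num) (by linarith) (by linarith)

lemma lm_nonpos {y : ℝ} (h0 : 0 ≤ y) (h1 : y ≤ 1) : lm y ≤ 0 := by
  rw [lm_eq]
  have := Real.log_nonpos (by linarith : (0:ℝ) ≤ 1 - y) (by linarith)
  nlinarith [cc_pos]

/-- entropy -/
lemma ent {y : ℝ} (h0 : 0 ≤ y) (h1 : y ≤ 1) : (1 + y) * lp y + (1 - y) * lm y ≤ 2 * y ^ 2 := by
  rcases eq_or_lt_of_le h0 with h | h
  · subst h; simp [lp, lm]
  rcases eq_or_lt_of_le h1 with h' | h'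
  · subst h'; rw [lp_one]; norm_num
  have := mul_le_mul_of_nonneg_left (H26.TL.entropy h h') cc_pos.le
  rw [lp_eq, lm_eq]
  have e : cc * (2 * Real.log 2 * y ^ 2) = 2 * y ^ 2 := by
    have := cc_mul
    calc cc * (2 * Real.log 2 * y ^ 2) = (cc * Real.log 2) * (2 * y ^ 2) := by ring
      _ = _ := by rw [this]; ring
  rw [e] at this
  linarith

lemma phi {y : ℝ} (h0 : 0 ≤ y) (h1 : y ≤ 1) :
    0 ≤ 6 * y ^ 2 + ((3 - 2 * y + y ^ 2) * (- lm y) - (3 + 2 * y + y ^ 2) * lp y)
      - 2 * (lp y * (- lm y)) := by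
  rcases eq_or_lt_of_le h0 with h | h
  · subst h; simp [lp, lm]
  rcases eq_or_lt_of_le h1 with h' | h'
  · subst h'; rw [lp_one, lm_one]; norm_num
  have := mul_nonneg (sq_nonneg cc) (H26.TL.phi_nonneg h h')
  rw [lp_eq, lm_eq]
  have e := cc_mul
  have e2 : cc ^ 2 * (6 * Real.log 2 ^ 2 * y ^ 2
      + Real.log 2 * ((3 - 2 * y + y ^ 2) * (-Real.log (1 - y)) - (3 + 2 * y + y ^ 2) * Real.log (1 + y))
      - 2 * (Real.log (1 + y) * (-Real.log (1 - y))))
      = (cc * Real.log 2) ^ 2 * (6 * y ^ 2) + (cc * Real.log 2) *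
       ((3 - 2 * y + y ^ 2) * (-(cc * Real.log (1 - y))) - (3 + 2 * y + y ^ 2) * (cc * Real.log (1 + y)))
       - 2 * ((cc * Real.log (1 + y)) * (-(cc * Real.log (1 - y)))) := by ring
  rw [e2, e] at this
  linarith

/-- the key inequality for `M ≥ 3` -/
lemma key {M y : ℝ} (hM : 3 ≤ M) (h0 : 0 ≤ y) (h1 : y ≤ 1) :
    (1 + y) * (lp y - y) * (M - lm y) ≤ (1 - y) * (- lm y - y) * (M - lp y) := by
  have e1 := ent h0 h1
  have e2 := phi h0 h1
  nlinarith [mul_nonneg (sub_nonneg.2 hM) (sub_nonneg.2 e1)]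

/-- `S₁ ≥ M (S₀ - 1)` -/
lemma key2 {m y : ℝ} (hm : 2 ≤ m) (h0 : 0 ≤ y) (h1 : y ≤ 1) :
    (1 + y) / 2 * lp y * ap m y + (1 - y) / 2 * lm y * am m y
      ≤ y * ((1 + y) / 2 * ap m y - (1 - y) / 2 * am m y) := by
  have hk := key (M := m + 1) (by linarith) h0 h1
  have hlp := lp_le_one h0 h1
  have hlm := lm_nonpos h0 h1
  have p1 : 0 < m + 1 - lp y := by linarith
  have p2 : 0 < m + 1 - lm y := by linarith
  have e : y * ((1 + y) / 2 * ap m y - (1 - y) / 2 * am m y)
    - ((1 + y) / 2 * lp y * ap m y + (1 - y) / 2 * lm y * am m y)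
    = ((1 - y) * (- lm y - y) * (m + 1 - lp y) - (1 + y) * (lp y - y) * (m + 1 - lm y))
      / (2 * (m + 1 - lp y) * (m + 1 - lm y)) := by
    unfold ap am
    field_simp
    ring
  have : 0 ≤ ((1 - y) * (- lm y - y) * (m + 1 - lp y) - (1 + y) * (lp y - y) * (m + 1 - lm y))
      / (2 * (m + 1 - lp y) * (m + 1 - lm y)) := by
    apply div_nonneg
    · linarith
    · positivity
  linarith

lemma Phi_eq {m x : ℝ} (hx : 0 < x) :
    Phi ((2:ℝ) ^ (-m) * x) = (2:ℝ) ^ (-m) * x * (2 - (2:ℝ) ^ (-m) * x) / (m + 1 - Real.logb 2 x) := by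
  unfold Phi
  have hb : (0:ℝ) < (2:ℝ) ^ (-m) := by positivity
  have : Real.logb 2 (2 / ((2:ℝ) ^ (-m) * x)) = m + 1 - Real.logb 2 x := by
    rw [Real.logb_div (by norm_num) (by positivity), Real.logb_mul (by positivity) (by positivity),
      Real.logb_rpow (by norm_num) (by norm_num)]
    have : Real.logb 2 2 = 1 := by simp
    rw [this]; ring
  rw [this]

lemma bM {m : ℝ} (hm : 2 ≤ m) : (2:ℝ) ^ (-m) * (m + 2) ≤ 1 := by
  have h1 : m + 2 ≤ (2:ℝ) ^ m := by
    have hb := one_add_mul_self_le_rpow_one_add (s := 1) (by norm_num) (p := m - 1) (by linarith)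
    have : (2:ℝ) ^ m = 2 * (2:ℝ) ^ (m - 1) := by
      rw [Real.rpow_sub (by norm_num), Real.rpow_one]; ring
    rw [this]
    norm_num at hb
    linarith
  rw [Real.rpow_neg (by norm_num), inv_mul_le_iff₀ (by positivity)]
  linarith

lemma jj_le_J {m y : ℝ} (hm : 2 ≤ m) (h0 : 0 ≤ y) (h1 : y ≤ 1) : jj m y ≤ J m y := by
  have hk := key2 hm h0 h1
  have hlp := lp_le_one h0 h1
  have hlm := lm_nonpos h0 h1
  have p1 : 0 < m + 1 - lp y := by linarith
  have p2 : 0 < m + 1 - lm y := by linarith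
  set b := (2:ℝ) ^ (-m) with hb
  have hbpos : 0 < b := by rw [hb]; positivity
  have hbM := bM hm
  rw [← hb] at hbM
  have ep : Phi (b * (1 + y)) = b * (1 + y) * (2 - b * (1 + y)) * ap m y := by
    rw [hb, Phi_eq (by linarith)]
    unfold ap lp
    ring
  have en : Phi (b * (1 - y)) = b * (1 - y) * (2 - b * (1 - y)) * am m y := by
    rcases eq_or_lt_of_le h1 with h' | h'
    · subst h'; simp [Phi]
    · rw [hb, Phi_eq (by linarith)]
      unfold am lm
      ring
  have ez : Phi b = b * (2 - b) / (m + 1) := by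
    have := Phi_eq (m := m) (x := 1) one_pos
    rw [mul_one, ← hb] at this
    rw [this]; simp
  unfold jj J
  rw [ep, en, ez]
  have hM : 0 < m + 1 := by linarith
  have hden : b * (2 - b) / (m + 1) - b ^ 2 = b * (2 - b - b * (m + 1)) / (m + 1) := by
    field_simp
  have hpos : 0 < 2 - b - b * (m + 1) := by nlinarith
  rw [hden, div_le_iff₀ (by positivity)]
  have hap : (m + 1 - lp y) * ap m y = 1 := by unfold ap; field_simp
  have ham : (m + 1 - lm y) * am m y = 1 := by unfold am; field_simp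
  set a := ap m y
  set c := am m y
  have hk' : 0 ≤ m * b * (b * ((y * ((1 + y) / 2 * a - (1 - y) / 2 * c))
     - ((1 + y) / 2 * lp y * a + (1 - y) / 2 * lm y * c))) := by
    apply mul_nonneg (by positivity)
    apply mul_nonneg hbpos.le
    linarith
  -- the identity `(m+1) (A₊ + A₋) - 1 = ∑ p ℓ a`
  have id1 : (m + 1) * ((1 + y) / 2 * a + (1 - y) / 2 * c)
      = 1 + ((1 + y) / 2 * lp y * a + (1 - y) / 2 * lm y * c) := by
    linear_combination ((1 + y) / 2) * hap + ((1 - y) / 2) * ham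
  set Sg := (1 + y) / 2 * lp y * a + (1 - y) / 2 * lm y * c with hSg
  have id2 : m * ((b * (1 + y) * (2 - b * (1 + y)) * a + b * (1 - y) * (2 - b * (1 - y)) * c) / 2
      - b * (2 - b) / (m + 1))
     = m * b * ((2 - b) * Sg / (m + 1) - b * (y * ((1 + y) / 2 * a - (1 - y) / 2 * c))) := by
    field_simp
    linear_combination (2 * (2 - b)) * id1
  rw [id2]
  have id3 : m * Sg * (b * (2 - b - b * (m + 1)) / (m + 1))
      = m * b * ((2 - b) * Sg / (m + 1) - b * Sg) := by
    field_simp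
  rw [id3]
  linarith

lemma lp_le {y : ℝ} (h0 : 0 ≤ y) : lp y ≤ 1.4427 * y := by
  rw [lp_eq]
  have h1 := Real.log_le_sub_one_of_pos (by linarith : 0 < 1 + y)
  have h2 := Real.log_nonneg (by linarith : (1:ℝ) ≤ 1 + y)
  have h3 := cc_lt
  have h4 := cc_pos
  nlinarith

/-- tangent bounds of the binary logarithm at `3/2` and at `2` -/
lemma lp_tan1 {y : ℝ} (h0 : 1 / 2 ≤ y) : lp y ≤ 10 / 17 + 0.9618 * (y - 1 / 2) := by
  have e : lp y = lp (1 / 2) + cc * Real.log ((1 + y) / (3 / 2)) := by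
    rw [lp_eq, lp_eq, Real.log_div (by linarith) (by norm_num)]
    norm_num
    ring
  have h1 := Real.log_le_sub_one_of_pos (by positivity : 0 < (1 + y) / (3 / 2))
  have h2 : lp (1 / 2) ≤ 10 / 17 := by
    unfold lp
    rw [Real.logb_le_iff_le_rpow (by norm_num) (by norm_num)]
    have : ((1:ℝ) + 1 / 2) = ((3 / 2 : ℝ) ^ (17:ℕ)) ^ ((1:ℝ) / 17) := by
      rw [← Real.rpow_natCast, ← Real.rpow_mul (by norm_num)]
      norm_num
    rw [this]
    have h2' : (2:ℝ) ^ ((10:ℝ) / 17) = ((2:ℝ) ^ (10:ℕ)) ^ ((1:ℝ) / 17) := by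
      rw [← Real.rpow_natCast, ← Real.rpow_mul (by norm_num)]
      norm_num
    rw [h2']
    apply Real.rpow_le_rpow (by positivity) _ (by norm_num)
    norm_num
  have h3 := cc_lt
  have h4 := cc_pos
  have h5 : 0 ≤ Real.log ((1 + y) / (3 / 2)) := Real.log_nonneg (by
    rw [le_div_iff₀ (by norm_num)]; linarith)
  rw [e]
  have h6 : cc * Real.log ((1 + y) / (3 / 2)) ≤ 1.4427 * ((1 + y) / (3 / 2) - 1) :=
    mul_le_mul h3.le h1 h5 (by norm_num)
  linarith

lemma lp_tan2 {y : ℝ} (h0 : 0 ≤ y) (h1 : y ≤ 1) : lp y ≤ 1 - 0.72 * (1 - y) := by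
  have e : lp y = 1 + cc * Real.log ((1 + y) / 2) := by
    rw [lp_eq, Real.log_div (by linarith) (by norm_num), mul_sub, cc_mul]
    ring
  have h2 := Real.log_le_sub_one_of_pos (by positivity : 0 < (1 + y) / 2)
  have h3 : 1.44 < cc := by
    unfold cc
    rw [lt_div_iff₀ (Real.log_pos (by norm_num))]
    have := Real.log_two_lt_d9
    linarith
  have h4 := cc_pos
  rw [e]
  have h6 : cc * Real.log ((1 + y) / 2) ≤ 1.44 * ((1 + y) / 2 - 1) := by
    have h7 := mul_le_mul_of_nonneg_left h2 h4.le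
    nlinarith
  linarith

lemma J_le_q {m y : ℝ} (hm : 2 ≤ m) (h0 : 0 ≤ y) (h1 : y ≤ 1) : J m y ≤ q y := by
  have hl0 := lp_nonneg h0
  have hlp := lp_le_one h0 h1
  have hlm := lm_nonpos h0 h1
  have p1 : 0 < m + 1 - lp y := by linarith
  have p2 : 0 < m + 1 - lm y := by linarith
  have hap : (m + 1 - lp y) * ap m y = 1 := by unfold ap; field_simp
  have ham : (m + 1 - lm y) * am m y = 1 := by unfold am; field_simp
  have hap0 : 0 < ap m y := by unfold ap; positivity
  have ham0 : 0 < am m y := by unfold am; positivity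
  have hap1 : m * ap m y ≤ 1 := by nlinarith
  have hM : 0 < m + 1 := by linarith
  have ham1 : am m y ≤ 1 / (m + 1) := by
    rw [le_div_iff₀ hM]; nlinarith
  unfold J q
  rcases le_total y 0.53 with hy | hy
  · -- small `y`
    have hent := ent h0 h1
    have hlp' := lp_le h0
    have hlm' : lm y ^ 2 * (1 - y) ^ 2 ≤ 1.4427 ^ 2 * y ^ 2 := by
      have h2 := Real.one_sub_inv_le_log_of_pos (by linarith : 0 < 1 - y)
      have h3 : - lm y * (1 - y) ≤ 1.4427 * y := by
        rw [lm_eq]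
        have h4 : - Real.log (1 - y) * (1 - y) ≤ y := by
          have h5 := mul_le_mul_of_nonneg_right h2 (by linarith : 0 ≤ 1 - y)
          rw [sub_mul, inv_mul_cancel₀ (by linarith)] at h5
          linarith
        have h5 : 0 ≤ - Real.log (1 - y) * (1 - y) := by
          apply mul_nonneg _ (by linarith)
          have := Real.log_nonpos (by linarith : (0:ℝ) ≤ 1 - y) (by linarith)
          linarith
        have h6 : cc * (- Real.log (1 - y) * (1 - y)) ≤ 1.4427 * y :=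
          mul_le_mul cc_lt.le h4 h5 (by norm_num)
        linarith
      have h4 : 0 ≤ - lm y * (1 - y) := mul_nonneg (by linarith) (by linarith)
      have h5 := pow_le_pow_left₀ h4 h3 2
      calc lm y ^ 2 * (1 - y) ^ 2 = (- lm y * (1 - y)) ^ 2 := by ring
        _ ≤ _ := h5
        _ = _ := by ring
    have hlm2 : (1 - y) / 2 * lm y ^ 2 ≤ 1.0407 * y ^ 2 / (1 - y) := by
      rw [le_div_iff₀ (by linarith)]
      nlinarith [sq_nonneg y]
    have hlp2 : (1 + y) / 2 * lp y ^ 2 ≤ 1.0407 * (1 + y) * y ^ 2 := by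
      have := pow_le_pow_left₀ hl0 hlp' 2
      nlinarith [sq_nonneg y]
    -- first term
    have t1 : m * ((1 + y) / 2 * lp y * ap m y)
        ≤ m / (m + 1) * ((1 + y) / 2 * lp y) + ((1 + y) / 2 * lp y ^ 2) / (m + 1) := by
      have e1 : m * ((1 + y) / 2 * lp y * ap m y) = m / (m + 1) * ((1 + y) / 2 * lp y)
          + ((1 + y) / 2 * lp y ^ 2) * (m * ap m y) / (m + 1) := by
        have e2 : (m + 1) * ap m y = 1 + lp y * ap m y := by linarith
        have e3 : m / (m + 1) * ((1 + y) / 2 * lp y) + ((1 + y) / 2 * lp y ^ 2) * (m * ap m y) / (m + 1)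
          = m * ((1 + y) / 2 * lp y) * (1 + lp y * ap m y) / (m + 1) := by
          ring
        rw [e3, ← e2]
        field_simp
      rw [e1]
      have : (1 + y) / 2 * lp y ^ 2 * (m * ap m y) / (m + 1) ≤ ((1 + y) / 2 * lp y ^ 2) / (m + 1) := by
        apply div_le_div_of_nonneg_right _ hM.le
        have : 0 ≤ (1 + y) / 2 * lp y ^ 2 := by positivity
        nlinarith
      linarith
    have t2 : m * ((1 - y) / 2 * lm y * am m y)
        ≤ m / (m + 1) * ((1 - y) / 2 * lm y) + (m / (m + 1) ^ 2) * ((1 - y) / 2 * lm y ^ 2) := by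
      have e1 : m * ((1 - y) / 2 * lm y * am m y) = m / (m + 1) * ((1 - y) / 2 * lm y)
          + (m / (m + 1)) * ((1 - y) / 2 * lm y ^ 2) * am m y := by
        have e2 : (m + 1) * am m y = 1 + lm y * am m y := by linarith
        have e3 : m / (m + 1) * ((1 - y) / 2 * lm y) + (m / (m + 1)) * ((1 - y) / 2 * lm y ^ 2) * am m y
          = m * ((1 - y) / 2 * lm y) * (1 + lm y * am m y) / (m + 1) := by
          ring
        rw [e3, ← e2]
        field_simp
      rw [e1]
      have h3 : 0 ≤ (m / (m + 1)) * ((1 - y) / 2 * lm y ^ 2) := by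
        have : 0 ≤ 1 - y := by linarith
        positivity
      have h4 := mul_le_mul_of_nonneg_left ham1 h3
      have h5 : m / (m + 1) * ((1 - y) / 2 * lm y ^ 2) * (1 / (m + 1))
        = (m / (m + 1) ^ 2) * ((1 - y) / 2 * lm y ^ 2) := by
        field_simp
      linarith
    have hmM2 : m / (m + 1) ^ 2 ≤ 2 / 9 := by
      rw [div_le_div_iff₀ (by positivity) (by norm_num)]
      nlinarith
    have t3 : m / (m + 1) * ((1 + y) / 2 * lp y) + m / (m + 1) * ((1 - y) / 2 * lm y)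
        ≤ y ^ 2 - y ^ 2 / (m + 1) := by
      have e : y ^ 2 - y ^ 2 / (m + 1) = m / (m + 1) * y ^ 2 := by
        field_simp
        ring
      rw [e, ← mul_add]
      apply mul_le_mul_of_nonneg_left _ (by positivity)
      linarith
    have t4 : ((1 + y) / 2 * lp y ^ 2) / (m + 1) - y ^ 2 / (m + 1)
        ≤ (1.0407 * (1 + y) - 1) * y ^ 2 / 3 := by
      rw [← sub_div]
      have h3 : (1 + y) / 2 * lp y ^ 2 - y ^ 2 ≤ (1.0407 * (1 + y) - 1) * y ^ 2 := by linarith
      have h4 : 0 ≤ (1.0407 * (1 + y) - 1) * y ^ 2 := by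
        apply mul_nonneg _ (sq_nonneg y); linarith
      calc ((1 + y) / 2 * lp y ^ 2 - y ^ 2) / (m + 1) ≤ (1.0407 * (1 + y) - 1) * y ^ 2 / (m + 1) :=
            div_le_div_of_nonneg_right h3 hM.le
        _ ≤ _ := div_le_div_of_nonneg_left h4 (by norm_num) (by linarith)
    have t5 : (m / (m + 1) ^ 2) * ((1 - y) / 2 * lm y ^ 2) ≤ 2 / 9 * (1.0407 * y ^ 2 / (1 - y)) := by
      apply mul_le_mul hmM2 hlm2 _ (by norm_num)
      have : 0 ≤ 1 - y := by linarith
      positivity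
    have t6 : 2 / 9 * (1.0407 * y ^ 2 / (1 - y)) + (1.0407 * (1 + y) - 1) * y ^ 2 / 3
        ≤ (1 - y ^ 2) * y ^ 2 := by
      have e : 2 / 9 * (1.0407 * y ^ 2 / (1 - y)) + (1.0407 * (1 + y) - 1) * y ^ 2 / 3
        = (2 / 9 * 1.0407 + (1.0407 * (1 + y) - 1) * (1 - y) / 3) * y ^ 2 / (1 - y) := by
        have : (1 - y) ≠ 0 := by linarith
        field_simp
      rw [e, div_le_iff₀ (by linarith)]
      have h3 : (2 / 9 * 1.0407 + (1.0407 * (1 + y) - 1) * (1 - y) / 3) ≤ (1 - y ^ 2) * (1 - y) := by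
        nlinarith [mul_nonneg h0 (sub_nonneg.2 hy), mul_nonneg (mul_nonneg h0 h0) (sub_nonneg.2 hy)]
      nlinarith [mul_le_mul_of_nonneg_right h3 (sq_nonneg y)]
    have : m * ((1 + y) / 2 * lp y * ap m y + (1 - y) / 2 * lm y * am m y)
       = m * ((1 + y) / 2 * lp y * ap m y) + m * ((1 - y) / 2 * lm y * am m y) := by ring
    rw [this]
    have e7 : (1 - y ^ 2) * y ^ 2 = y ^ 2 - y ^ 4 := by ring
    rw [e7] at t6
    linarith
  · have hJ : m * ((1 + y) / 2 * lp y * ap m y + (1 - y) / 2 * lm y * am m y) ≤ (1 + y) / 2 * lp y := by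
      have h2 : 0 ≤ (1 + y) / 2 * lp y := by positivity
      have h3 : m * ((1 - y) / 2 * lm y * am m y) ≤ 0 := by
        have : 0 ≤ m * ((1 - y) / 2 * (- lm y) * am m y) := by
          have h5 : 0 ≤ 1 - y := by linarith
          have h6 : 0 ≤ - lm y := by linarith
          positivity
        linarith
      nlinarith
    refine hJ.trans ?_
    rcases le_total y 0.7 with hy' | hy'
    · have ht := lp_tan1 (y := y) (by linarith)
      have h3 : (1 + y) / 2 * lp y ≤ (1 + y) / 2 * (10 / 17 + 0.9618 * (y - 1 / 2)) :=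
        mul_le_mul_of_nonneg_left ht (by positivity)
      refine h3.trans ?_
      have h4 := mul_nonneg (sub_nonneg.2 hy) (sub_nonneg.2 hy')
      nlinarith [mul_nonneg h4 (sub_nonneg.2 hy), mul_nonneg h4 (sub_nonneg.2 hy'), mul_nonneg h4 h0,
        mul_nonneg (mul_nonneg h4 h0) h0, mul_nonneg h4 h4]
    · have ht := lp_tan2 h0 h1
      have h3 : (1 + y) / 2 * lp y ≤ (1 + y) / 2 * (1 - 0.72 * (1 - y)) :=
        mul_le_mul_of_nonneg_left ht (by positivity)
      refine h3.trans ?_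
      have h4 := mul_nonneg (sub_nonneg.2 hy') (sub_nonneg.2 h1)
      nlinarith [mul_nonneg h4 (sub_nonneg.2 hy'), mul_nonneg h4 (sub_nonneg.2 h1), mul_nonneg h4 h0,
        mul_nonneg (mul_nonneg h4 h0) h0, mul_nonneg h4 h4]

/-- (R1) -/
theorem t_R1 : S_R1 := by
  intro m y hm h0 h1
  refine (jj_le_J hm h0 h1).trans ?_
  have hw : 0 ≤ w m := by
    unfold w
    have : 0 < m + 7 / 4 := by linarith
    positivity
  have := J_le_q hm h0 h1
  unfold f
  nlinarith

end R1

end Pool.MP324
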